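import Pool.Agent.helper41.G5.SpecG
import Pool.Agent.helper64.D2.SpecC

set_option autoImplicit false

open Filter Topology MeasureTheory

namespace Pool.Agent.helper90.DH

open Pool.Agent.helper64.D2

theorem gNIB (hBAS : Pool.Agent.helper64.D2.BAS_stmt) : gNIB_stmt := by
  intro g a ha hS
  have hc : ContDiff ℝ 2 (ev g) := ev_contDiff g
  set X : ℝ → ℝ := fun x => ev g x - x with hX
  have hXc : ContDiff ℝ 2 X := hc.sub contDiff_id
  have hdiff : Differentiable ℝ (ev g) := hc.differentiable (by norm_num)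
  have hdX : deriv X = fun x => deriv (ev g) x - 1 := by
    funext x
    exact (hdiff x).hasDerivAt.sub (hasDerivAt_id x) |>.deriv
  have hd2 : ∀ x, d2 X x = d2 (ev g) x := by
    intro x
    unfold d2
    rw [hdX]
    rw [deriv_sub_const]
  have hout : ∀ x, x ∉ Set.Icc (0 : ℝ) 1 → X x = 0 := by
    intro x hx
    have : x ∉ Set.Ioo (0 : ℝ) 1 := fun h => hx (Set.Ioo_subset_Icc_self h)
    simp only [hX]
    rw [ev_out g x this, sub_self]
  obtain ⟨h1, h2, -, -⟩ := hBAS X 0 1 a hXc hout (fun x => by rw [hd2]; exact hS x) zero_le_one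
  have h1' : ∀ x, |deriv X x| ≤ a := fun x => by simpa using h1 x
  refine ⟨fun x => by simpa [hX] using h2 x, fun x => ?_, fun x y => ?_⟩
  · have := h1' x
    rwa [hdX] at this
  · have h3 := (convex_univ (𝕜 := ℝ) (E := ℝ)).norm_image_sub_le_of_norm_deriv_le (f := X) (C := a)
      (fun z _ => (hXc.differentiable (by norm_num)) z) (fun z _ => by rw [Real.norm_eq_abs]; exact h1' z)
      (Set.mem_univ y) (Set.mem_univ x)
    rw [Real.norm_eq_abs, Real.norm_eq_abs] at h3
    have e1 : (ev g x - ev g y) - (x - y) = X x - X y := by simp only [hX]; ring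
    rw [e1]
    exact h3

end Pool.Agent.helper90.DH
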